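import Pool.Agent.Run7.h630.MQ.Iface
import Pool.Agent.Run7.h4.YM.Vac

/-!
# The energy of a fibre (piece E of the massive continuum limit at polynomially large `β`)
-/

open MeasureTheory Matrix Filter Topology
open scoped Matrix.Norms.Frobenius ComplexConjugate

namespace Run7.h4.MQ

open Run7.h4.YM Run7.h630.ML
open Run7.h630.MQ hiding om W zt

set_option linter.unusedSectionVars false

noncomputable section

section

variable {N n L l : ℕ} [NeZero N] [NeZero n] [NeZero L] [NeZero l] {k : ℕ}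

theorem fd_one (g : SU N) : ‖g.1 - 1‖ ^ 2 = 2 * aw 1 g := by
  have h := dd_eq_norm g 1
  rw [coe_one'] at h
  rw [aw_one_eq, h]
  ring

theorem fd_z (hζ : IsPrimitiveRoot (om N k) N) (g : SU N) :
    ‖conj (om N k) • g.1 - 1‖ ^ 2 = 2 * aw (om N k) g⁻¹ := by
  have h1 : conj (om N k) • g.1 = ((cz hζ 1)⁻¹ * g).1 := by
    rw [coe_mul', coe_inv', cz_val, pow_one, star_smul, star_one, smul_mul_assoc, one_mul]
    rfl
  rw [h1, fd_one, ← aw_inv]
  have h2 : ((cz hζ 1)⁻¹ * g)⁻¹ = g⁻¹ * cz hζ 1 := by group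
  rw [h2, aw_cyc]
  congr 1
  unfold aw
  rw [tr_cz_mul, pow_one, one_mul]

theorem om_eq (N k : ℕ) : Run7.h630.MQ.om N k = om N k := rfl

theorem Te_le (hζ : IsPrimitiveRoot (om N k) N) (U : Link n L l → SU N) (t : ZMod n) (x : ZMod L) :
    Te k U (t, x) ≤ 2 * (Vf k U t x + K0 U t x + K1 U t x) := by
  unfold Te Vf K0 K1
  rw [← Finset.sum_add_distrib, ← Finset.sum_add_distrib, Finset.mul_sum]
  refine Finset.sum_le_sum fun y _ => ?_
  obtain ⟨a, b⟩ := y
  have hD : D3 = {0, 1, 3} := rfl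
  rw [hD, Finset.sum_insert (by decide), Finset.sum_insert (by decide), Finset.sum_singleton]
  have e0 : ‖Fd k U (t, x, a, b) 0‖ ^ 2 = 2 * aw 1 (plaq U (t, x, a, b) 0 2) := by
    rw [← fd_one]
    unfold Fd Run7.h630.MQ.zt
    simp
  have e1 : ‖Fd k U (t, x, a, b) 1‖ ^ 2 = 2 * aw 1 (plaq U (t, x, a, b) 1 2) := by
    rw [← fd_one]
    unfold Fd Run7.h630.MQ.zt
    simp
  have e3 : ‖Fd k U (t, x, a, b) 3‖ ^ 2 = 2 * aw (twf N k (a, b)) (plaq U (t, x, a, b) 2 3) := by
    have h1 : (plaq U (t, x, a, b) 3 2)⁻¹ = plaq U (t, x, a, b) 2 3 := by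
      unfold plaq; group
    unfold Fd Run7.h630.MQ.zt twf
    by_cases h : (a, b) = (0 : ZMod l × ZMod l)
    · rw [if_pos ⟨rfl, h⟩, if_pos h, om_eq, fd_z hζ, h1]
      rfl
    · rw [if_neg (fun h' => h h'.2), if_neg h, map_one, one_smul, fd_one, ← aw_inv, h1]
  rw [e0, e1, e3]
  have f0 := aw_one_nonneg (U (0, t, x, a, b) * U (3, t + 1, x, a, b) *
    (U (0, t, x, (a, b) + (0, 1)))⁻¹ * (U (3, t, x, a, b))⁻¹)
  have f1 := aw_one_nonneg (U (1, t, x, a, b) * U (3, t, x + 1, a, b) *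
    (U (1, t, x, (a, b) + (0, 1)))⁻¹ * (U (3, t, x, a, b))⁻¹)
  have g0 : plaq U (t, x, a, b) 0 2 = U (0, t, x, a, b) * U (2, t + 1, x, a, b) *
    (U (0, t, x, (a, b) + (1, 0)))⁻¹ * (U (2, t, x, a, b))⁻¹ := by
    unfold plaq dir; simp
  have g1 : plaq U (t, x, a, b) 1 2 = U (1, t, x, a, b) * U (2, t, x + 1, a, b) *
    (U (1, t, x, (a, b) + (1, 0)))⁻¹ * (U (2, t, x, a, b))⁻¹ := by
    unfold plaq dir; simp
  have g3 : plaq U (t, x, a, b) 2 3 = U (2, t, x, a, b) * U (3, t, x, (a, b) + (1, 0)) *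
    (U (2, t, x, (a, b) + (0, 1)))⁻¹ * (U (3, t, x, a, b))⁻¹ := by
    unfold plaq dir; simp
  rw [g0, g1, g3]
  linarith

theorem Wf_nonneg' (U : Link n L l → SU N) (t : ZMod n) (x : ZMod L) : 0 ≤ Wf U t x :=
  Finset.sum_nonneg fun _ _ => aw_one_nonneg _

theorem sum_Te_le (hζ : IsPrimitiveRoot (om N k) N) (U : Link n L l → SU N) :
    ∑ u : ZMod n × ZMod L, Te k U u ≤ 2 * action k U := by
  rw [Fintype.sum_prod_type, action_eq, Finset.mul_sum]
  refine Finset.sum_le_sum fun t _ => ?_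
  rw [Finset.mul_sum]
  refine Finset.sum_le_sum fun x _ => ?_
  have h1 := Te_le hζ U t x
  have h2 := Wf_nonneg' U t x
  linarith

theorem action_nonneg' (hζ : IsPrimitiveRoot (om N k) N) (U : Link n L l → SU N) :
    0 ≤ action k U := by
  have h1 := sum_Te_le hζ U
  have h2 : 0 ≤ ∑ u : ZMod n × ZMod L, Te k U u :=
    Finset.sum_nonneg fun _ _ => Finset.sum_nonneg fun _ _ => Finset.sum_nonneg fun _ _ =>
      sq_nonneg _
  linarith

theorem cont_plaq (x : Site n L l) (i j : Fin 4) :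
    Continuous fun U : Link n L l → SU N => plaq U x i j := by
  have h : ∀ e : Link n L l, Continuous fun U : Link n L l → SU N => U e := fun e =>
    continuous_apply e
  exact (((h (i, x)).mul (h (j, x + dir i))).mul (h (i, x + dir j)).inv).mul (h (j, x)).inv

theorem cont_Te (k : ℕ) (u : ZMod n × ZMod L) :
    Continuous fun U : Link n L l → SU N => Te k U u := by
  unfold Te
  refine continuous_finsetSum _ fun y _ => continuous_finsetSum _ fun j _ => ?_
  have h1 : Continuous fun U : Link n L l → SU N => (plaq U (u.1, u.2, y) j 2).1 :=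
    continuous_coe.comp (cont_plaq (u.1, u.2, y) j 2)
  have h2 : Continuous fun U : Link n L l → SU N => Fd k U (u.1, u.2, y) j :=
    (h1.const_smul (conj (Run7.h630.MQ.zt N k (u.1, u.2, y) j))).sub continuous_const
  exact h2.norm.pow 2

theorem Te_T0 (U : Link n L l → SU N) (t : ZMod n) (x : ZMod L) :
    Te k (T0 U) (t, x) = Te k U (t + 1, x) := by
  unfold Te
  refine Finset.sum_congr rfl fun y _ => Finset.sum_congr rfl fun j _ => ?_
  have key : ∀ (i : Fin 4) (e : Site n L l), T0 U (i, (t, x, y) + e) =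
      U (i, (t + 1, x, y) + e) := by
    rintro i ⟨e1, e2⟩
    show U (i, (t + e1 + 1, (x, y) + e2)) = U (i, (t + 1 + e1, (x, y) + e2))
    rw [add_right_comm]
  have e : plaq (T0 U) (t, x, y) j 2 = plaq U (t + 1, x, y) j 2 := by
    unfold plaq
    rw [key, key]
    rfl
  unfold Fd
  rw [e]
  rfl

theorem Te_T1 (U : Link n L l → SU N) (t : ZMod n) (x : ZMod L) :
    Te k (T1 U) (t, x) = Te k U (t, x + 1) := by
  unfold Te
  refine Finset.sum_congr rfl fun y _ => Finset.sum_congr rfl fun j _ => ?_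
  have key : ∀ (i : Fin 4) (e : Site n L l), T1 U (i, (t, x, y) + e) =
      U (i, (t, x + 1, y) + e) := by
    rintro i ⟨e1, e2, e3⟩
    show U (i, (t + e1, (x + e2 + 1, y + e3))) = U (i, (t + e1, (x + 1 + e2, y + e3)))
    rw [add_right_comm]
  have e : plaq (T1 U) (t, x, y) j 2 = plaq U (t, x + 1, y) j 2 := by
    unfold plaq
    rw [key, key]
    rfl
  unfold Fd
  rw [e]
  rfl

end

section

variable {N m m' l : ℕ} [NeZero N] [NeZero m] [NeZero m'] [NeZero l] {k : ℕ}
  [MeasurableSpace (SU N)] [BorelSpace (SU N)] (μ : Measure (SU N)) [IsProbabilityMeasure μ]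
  [μ.IsInvInvariant]

/-- translation invariance -/
theorem II_Te (β : ℝ) (t : ZMod (2 * m)) (x : ZMod (2 * m')) :
    II μ k β (fun U : Cf N m m' l => Te k U (t, x)) =
      II μ k β (fun U : Cf N m m' l => Te k U (0, 0)) := by
  have hb : ∀ u : ZMod (2 * m) × ZMod (2 * m'), Bd fun U : Cf N m m' l => Te k U u := fun u =>
    Bd.of_continuous (cont_Te k u)
  have h0 : ∀ i : ℕ, ∀ x : ZMod (2 * m'), II μ k β (fun U : Cf N m m' l => Te k U ((i : ZMod (2 * m)), x)) =
      II μ k β (fun U : Cf N m m' l => Te k U (0, x)) := by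
    intro i x
    induction i with
    | zero => rw [Nat.cast_zero]
    | succ i ih =>
      rw [← ih, ← II_T0 μ k β (hb ((i : ZMod (2 * m)), x))]
      simp only [Te_T0, Nat.cast_succ]
  have h1 : ∀ i : ℕ, II μ k β (fun U : Cf N m m' l => Te k U (0, (i : ZMod (2 * m')))) =
      II μ k β (fun U : Cf N m m' l => Te k U (0, 0)) := by
    intro i
    induction i with
    | zero => rw [Nat.cast_zero]
    | succ i ih =>
      rw [← ih, ← II_T1 μ k β (hb (0, (i : ZMod (2 * m'))))]
      simp only [Te_T1, Nat.cast_succ]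
  have h2 := h0 t.val x
  have h3 := h1 x.val
  rw [ZMod.natCast_zmod_val] at h2 h3
  rw [h2, h3]

/-- the mean of the energy of a fibre from the mean of the action -/
theorem mean_Te (hζ : IsPrimitiveRoot (om N k) N) (β : ℝ) (u : ZMod (2 * m) × ZMod (2 * m')) :
    (2 * m) * (2 * m') * II μ k β (fun U : Cf N m m' l => Te k U u) ≤
      2 * II μ k β (fun U : Cf N m m' l => action k U) := by
  have hb : ∀ u : ZMod (2 * m) × ZMod (2 * m'), Bd fun U : Cf N m m' l => Te k U u := fun u =>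
    Bd.of_continuous (cont_Te k u)
  have h1 : ∑ v : ZMod (2 * m) × ZMod (2 * m'), II μ k β (fun U : Cf N m m' l => Te k U v) ≤
      2 * II μ k β (fun U : Cf N m m' l => action k U) := by
    rw [← II_sum μ k β _ fun v _ => hb v, ← II_smul]
    exact II_mono μ k β (Bd.sum _ fun v _ => hb v) ((bd_action k).smul 2)
      fun U => sum_Te_le hζ U
  refine le_trans (le_of_eq ?_) h1
  rw [Finset.sum_congr rfl fun (v : ZMod (2 * m) × ZMod (2 * m')) _ =>
    (II_Te (l := l) (k := k) μ β v.1 v.2).trans (II_Te μ β u.1 u.2).symm]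
  rw [Finset.sum_const, Finset.card_univ, Fintype.card_prod, ZMod.card, ZMod.card, nsmul_eq_mul]
  push_cast
  ring

/-- Jensen's inequality for the action -/
theorem jensen (hζ : IsPrimitiveRoot (om N k) N) {β : ℝ} (hβ : 0 < β) :
    β / 2 * (II μ k β (fun U : Cf N m m' l => action k U) / ZZ μ m m' l k β) ≤
      -Real.log (ZZ μ m m' l k β) := by
  have hZ := ZZ_pos (N := N) (m := m) (m' := m') (l := l) μ k β
  obtain ⟨a, ha⟩ : ∃ a : ℝ, a = β / 2 * (II μ k β (fun U : Cf N m m' l => action k U) /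
    ZZ μ m m' l k β) := ⟨_, rfl⟩
  rw [← ha]
  have h1 : II μ k β (fun U : Cf N m m' l => Real.exp (β / 2 * action k U)) ≤ 1 := by
    have e : II μ k β (fun U : Cf N m m' l => Real.exp (β / 2 * action k U)) =
        ∫ U : Cf N m m' l, Real.exp (-(β / 2 * action k U)) ∂(Measure.pi fun _ => μ) := by
      unfold II
      refine integral_congr_ae (Filter.Eventually.of_forall fun U => ?_)
      simp only
      rw [← Real.exp_add]
      congr 1
      ring
    rw [e]
    have h2 : ∫ U : Cf N m m' l, Real.exp (-(β / 2 * action k U)) ∂(Measure.pi fun _ => μ) ≤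
        ∫ _ : Cf N m m' l, (1 : ℝ) ∂(Measure.pi fun _ => μ) := by
      refine integral_mono (bd_w k (β / 2)).integrable (integrable_const _) fun U => ?_
      simp only
      rw [← Real.exp_zero]
      refine Real.exp_le_exp.mpr ?_
      have := action_nonneg' hζ U
      have : 0 ≤ β / 2 * action k U := by positivity
      linarith
    refine h2.trans (le_of_eq ?_)
    simp
  have h2 : Real.exp a * ZZ μ m m' l k β ≤
      II μ k β (fun U : Cf N m m' l => Real.exp (β / 2 * action k U)) := by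
    have hb : Bd fun U : Cf N m m' l => Real.exp a * (β / 2 * action k U) + Real.exp a * ((1 - a) * 1) :=
      (((bd_action k).smul (β / 2)).smul (Real.exp a)).add (((Bd.const 1).smul (1 - a)).smul (Real.exp a))
    have h3 := II_mono (m := m) (m' := m') (l := l) μ k β hb (((bd_action k).smul (β / 2)).exp) (fun U => by
      have h4 := Real.add_one_le_exp (β / 2 * action k U - a)
      have h5 : Real.exp (β / 2 * action k U) = Real.exp a * Real.exp (β / 2 * action k U - a) := by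
        rw [← Real.exp_add]; congr 1; ring
      rw [h5]
      have h6 := mul_le_mul_of_nonneg_left h4 (Real.exp_pos a).le
      linarith)
    rw [II_add μ k β (((bd_action k).smul (β / 2)).smul (Real.exp a))
      (((Bd.const 1).smul (1 - a)).smul (Real.exp a)), II_smul, II_smul, II_smul, II_smul] at h3
    refine le_trans (le_of_eq ?_) h3
    have h7 : II μ k β (fun _ : Cf N m m' l => (1 : ℝ)) = ZZ μ m m' l k β := rfl
    rw [h7]
    have h8 : β / 2 * II μ k β (fun U : Cf N m m' l => action k U) = a * ZZ μ m m' l k β := by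
      rw [ha]; field_simp
    rw [h8]
    ring
  have h3 : Real.exp a * ZZ μ m m' l k β ≤ 1 := h2.trans h1
  have h4 : Real.exp a ≤ Real.exp (-Real.log (ZZ μ m m' l k β)) := by
    rw [Real.exp_neg, Real.exp_log hZ, ← one_div, le_div_iff₀ hZ]
    exact h3
  exact Real.exp_le_exp.mp h4

end

theorem t_E (hE1 : S_E1) : S_E := by
  intro N k _ hk _ _ μ _ _
  have hi := inv_inv' μ
  have hζ := om_prim (N := N) hk
  obtain ⟨c, hc, hball⟩ := hE1 N μ
  have hN : (1 : ℝ) ≤ N := by exact_mod_cast NeZero.one_le (n := N)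
  refine ⟨4 * (4 * (|Real.log c| + N ^ 2) + 48), by positivity, fun m m' l _ _ _ β hβ u => ?_⟩
  have hβ0 : 0 < β := by linarith
  have hZ := ZZ_pos (N := N) (m := m) (m' := m') (l := l) μ k β
  have hl : (1 : ℝ) ≤ l := by exact_mod_cast NeZero.one_le (n := l)
  have hm : (0 : ℝ) < m := by exact_mod_cast NeZero.pos m
  have hm' : (0 : ℝ) < m' := by exact_mod_cast NeZero.pos m'
  have hlog : 0 ≤ Real.log β := Real.log_nonneg hβ
  rw [expect_eq]
  have e0 : II μ k β (fun _ : Link (2 * m) (2 * m') l → SU N => (1 : ℝ)) = ZZ μ m m' l k β := rfl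
  rw [e0]
  have h1 := mean_Te (l := l) (k := k) μ hζ β u
  have h2 := jensen (m := m) (m' := m') (l := l) μ hζ hβ0
  obtain ⟨η, hη⟩ : ∃ η : ℝ, η = (Real.sqrt β)⁻¹ := ⟨_, rfl⟩
  have hs : 1 ≤ Real.sqrt β := by rw [Real.one_le_sqrt]; exact hβ
  have hη0 : 0 < η := by rw [hη]; positivity
  have hη1 : η ≤ 1 := by rw [hη]; exact inv_le_one_of_one_le₀ hs
  have hη2 : β * η ^ 2 = 1 := by
    rw [hη, inv_pow, Real.sq_sqrt hβ0.le]; field_simp
  have hlη : Real.log η = -(Real.log β / 2) := by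
    rw [hη, Real.log_inv, Real.log_sqrt hβ0.le]
  have hb : c * η ^ (2 * N ^ 2) ≤ ball μ η := by
    have := hball η hη0 hη1
    unfold ball
    have e : {g : SU N | dd g 1 < η} = {g : SU N | ‖g.1 - 1‖ < η} := by
      ext g
      simp only [Set.mem_ofPred_eq]
      rw [dd_eq_norm, coe_one']
    rw [e]
    exact this
  have hbp : 0 < c * η ^ (2 * N ^ 2) := by positivity
  have hbp' := lt_of_lt_of_le hbp hb
  have h3 := ZZ_lower (l := l) hζ μ (m := m) (m' := m') (η := η) hβ0.le
  have h4 := Real.log_le_log (by positivity) h3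
  rw [Real.log_pow, Real.log_mul (by positivity) (Real.exp_pos _).ne', Real.log_pow,
    Real.log_exp] at h4
  have h5 : Real.log c - N ^ 2 * Real.log β ≤ Real.log (ball μ η) := by
    have := Real.log_le_log hbp hb
    rw [Real.log_mul hc.ne' (by positivity), Real.log_pow, hlη] at this
    refine le_trans (le_of_eq ?_) this
    push_cast
    ring
  have h6 : β * (48 * (l : ℝ) ^ 2 * η ^ 2) = 48 * l ^ 2 := by
    have : β * (48 * (l : ℝ) ^ 2 * η ^ 2) = 48 * l ^ 2 * (β * η ^ 2) := by ring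
    rw [this, hη2, mul_one]
  rw [h6] at h4
  push_cast at h4
  -- the bound of `- log Z`
  have h7 : -Real.log (ZZ μ m m' l k β) ≤
      2 * m' * (2 * m) * (l ^ 2 * (4 * (|Real.log c| + N ^ 2 * Real.log β) + 48)) := by
    have h8 : -(4 * (l : ℝ) ^ 2 * Real.log (ball μ η) + -(48 * l ^ 2)) ≤
        l ^ 2 * (4 * (|Real.log c| + N ^ 2 * Real.log β) + 48) := by
      have h9 := neg_abs_le (Real.log c)
      have h10 : -(|Real.log c| + N ^ 2 * Real.log β) ≤ Real.log (ball μ η) := by linarith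
      have h11 := mul_le_mul_of_nonneg_left h10 (by positivity : (0 : ℝ) ≤ 4 * (l : ℝ) ^ 2)
      linarith
    have h12 := mul_le_mul_of_nonneg_left h8 (by positivity : (0 : ℝ) ≤ 2 * m' * (2 * m))
    linarith
  obtain ⟨T, hT⟩ : ∃ T : ℝ, T = II μ k β (fun U : Cf N m m' l => Te k U u) := ⟨_, rfl⟩
  obtain ⟨S, hS⟩ : ∃ S : ℝ, S = II μ k β (fun U : Cf N m m' l => action k U) := ⟨_, rfl⟩
  obtain ⟨Z, hZZ⟩ : ∃ Z : ℝ, Z = ZZ μ m m' l k β := ⟨_, rfl⟩
  rw [← hT, ← hZZ]
  rw [← hT, ← hS] at h1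
  rw [← hS, ← hZZ] at h2
  rw [← hZZ] at h7 hZ
  have h8 : β / 2 * (S / Z) ≤
      2 * m' * (2 * m) * (l ^ 2 * (4 * (|Real.log c| + N ^ 2 * Real.log β) + 48)) := h2.trans h7
  have h9 : (2 * m) * (2 * m') * (T / Z) ≤ 2 * (S / Z) := by
    have := div_le_div_of_nonneg_right h1 hZ.le
    rw [mul_div_assoc, mul_div_assoc] at this
    exact this
  have h10 : (2 * m) * (2 * m') * (β / 4 * (T / Z)) ≤
      (2 * m) * (2 * m') * (l ^ 2 * (4 * (|Real.log c| + N ^ 2 * Real.log β) + 48)) := by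
    have h11 := mul_le_mul_of_nonneg_left h9 (by positivity : (0 : ℝ) ≤ β / 4)
    nlinarith
  have h11 : β / 4 * (T / Z) ≤ l ^ 2 * (4 * (|Real.log c| + N ^ 2 * Real.log β) + 48) :=
    le_of_mul_le_mul_left h10 (by positivity)
  rw [le_div_iff₀ hβ0]
  have h12 : (l : ℝ) ^ 2 * (4 * (|Real.log c| + N ^ 2 * Real.log β) + 48) ≤
      l ^ 2 * ((4 * (|Real.log c| + N ^ 2) + 48) * (1 + Real.log β)) := by
    refine mul_le_mul_of_nonneg_left ?_ (by positivity)
    have a1 := abs_nonneg (Real.log c)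
    have a2 : (0 : ℝ) ≤ |Real.log c| * Real.log β := by positivity
    have a3 : (0 : ℝ) ≤ (N : ℝ) ^ 2 := by positivity
    linarith
  linarith

end

end Run7.h4.MQ
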